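import Mathlib
import Pool.Agent.Work.MP_65ae80_co.Growth

/-! `MP_65ae80_co`, Q1: a sum closed permutation class with unboundedly many indecomposables of
each length has growth rate at least `τ`. -/

namespace Pool.Agent.Results.MP_65ae80_co.Threshold

open Equiv Filter Topology Pool.Agent.Work.MP_65ae80_co

/-- If `C` is a sum closed permutation class such that the number of indecomposable
permutations of length `n` in `C` is unbounded, and `τ` is the positive root of
`x ^ 3 - 3 * x ^ 2 + 2 * x - 1`, then `gr(C) ≥ τ`: every `c < τ` is eventually smaller than the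
`n`-th root of the number of members of length `n`; in particular the limit of these `n`-th
roots (finite or infinite) is at least `τ`. -/
theorem result (C : ∀ n : ℕ, Set (Perm (Fin n))) (hC : IsClass C) (hs : SumClosed C)
    (hu : ∀ B : ℕ, ∃ n : ℕ, B < (ind C n).ncard) (τ : ℝ) (hτ0 : 0 < τ)
    (hτ : τ ^ 3 - 3 * τ ^ 2 + 2 * τ - 1 = 0) :
    (∀ c : ℝ, c < τ → ∀ᶠ n : ℕ in atTop, c < ((C n).ncard : ℝ) ^ ((1 : ℝ) / (n : ℝ))) ∧
    (∀ g : EReal, Tendsto (fun n : ℕ =>
        ((((C n).ncard : ℝ) ^ ((1 : ℝ) / (n : ℝ)) : ℝ) : EReal)) atTop (𝓝 g) →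
      (τ : EReal) ≤ g) := by
  have h1 := threshold C hC hs hu τ hτ0 hτ
  refine ⟨h1, ?_⟩
  intro g hg
  by_contra hlt
  rw [not_le] at hlt
  obtain ⟨c, hc1, hc2⟩ := EReal.lt_iff_exists_real_btwn.1 hlt
  have hc2' : c < τ := EReal.coe_lt_coe_iff.1 hc2
  have h2 := h1 c hc2'
  have h3 := hg.eventually (gt_mem_nhds hc1)
  obtain ⟨n, hn1, hn2⟩ := (h2.and h3).exists
  have hn3 := EReal.coe_lt_coe_iff.1 hn2
  exact absurd hn1 (not_lt.2 hn3.le)

end Pool.Agent.Results.MP_65ae80_co.Threshold
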